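import Pool.Agent.W945.Pw.Stm

/-! Project PW: one product is small on `D + T ∧ U`. -/

set_option autoImplicit false

noncomputable section

namespace Pool.Agent.W45.Pw.TERM

open Pool.Agent.W945.Pw Finset

/-! ### Averages -/

theorem avg_prod {α β : Type} [Fintype α] [Fintype β] (f : α × β → ℝ) :
    avg f = avg fun a => avg fun b => f (a, b) := by
  unfold avg
  rw [Fintype.sum_prod_type, Fintype.card_prod, ← Finset.sum_div, div_div, Nat.cast_mul,
    mul_comm (Fintype.card α : ℝ)]

theorem avg_comm {α β : Type} [Fintype α] [Fintype β] (f : α → β → ℝ) :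
    (avg fun a => avg fun b => f a b) = avg fun b => avg fun a => f a b := by
  unfold avg
  rw [← Finset.sum_div, ← Finset.sum_div, Finset.sum_comm, div_div, div_div, mul_comm]

theorem avg_sum {α ι : Type} [Fintype α] (s : Finset ι) (f : ι → α → ℝ) :
    (avg fun a => ∑ i ∈ s, f i a) = ∑ i ∈ s, avg (f i) := by
  unfold avg
  rw [Finset.sum_comm, Finset.sum_div]

theorem avg_mul_left {α : Type} [Fintype α] (c : ℝ) (f : α → ℝ) :
    (avg fun a => c * f a) = c * avg f := by
  unfold avg
  rw [← Finset.mul_sum, mul_div_assoc]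

theorem avg_mono {α : Type} [Fintype α] {f g : α → ℝ} (h : ∀ a, f a ≤ g a) : avg f ≤ avg g := by
  unfold avg
  exact div_le_div_of_nonneg_right (Finset.sum_le_sum fun a _ => h a) (Nat.cast_nonneg _)

theorem abs_avg_le {α : Type} [Fintype α] (f : α → ℝ) : |avg f| ≤ avg fun a => |f a| := by
  unfold avg
  rw [abs_div, Nat.abs_cast]
  exact div_le_div_of_nonneg_right (Finset.abs_sum_le_sum_abs _ _) (Nat.cast_nonneg _)

theorem avg_nonneg {α : Type} [Fintype α] {f : α → ℝ} (h : ∀ a, 0 ≤ f a) : 0 ≤ avg f := by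
  unfold avg
  exact div_nonneg (Finset.sum_nonneg fun a _ => h a) (Nat.cast_nonneg _)

theorem avg_const {α : Type} [Fintype α] [Nonempty α] (c : ℝ) : (avg fun _ : α => c) = c := by
  unfold avg
  have h : (Fintype.card α : ℝ) ≠ 0 := by
    have := Fintype.card_pos (α := α)
    positivity
  rw [Finset.sum_const, Finset.card_univ, nsmul_eq_mul]
  field_simp

theorem sq_avg_le {α : Type} [Fintype α] [Nonempty α] (f : α → ℝ) :
    avg f ^ 2 ≤ avg fun a => f a ^ 2 := by
  unfold avg
  have h : 0 < (Fintype.card α : ℝ) := by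
    have := Fintype.card_pos (α := α)
    positivity
  have h1 := sq_sum_le_card_mul_sum_sq (s := (Finset.univ : Finset α)) (f := f)
  rw [Finset.card_univ] at h1
  rw [div_pow, div_le_div_iff₀ (by positivity) h]
  calc (∑ ω, f ω) ^ 2 * (Fintype.card α : ℝ) ≤
        ((Fintype.card α : ℝ) * ∑ i, f i ^ 2) * (Fintype.card α : ℝ) :=
        mul_le_mul_of_nonneg_right h1 h.le
    _ = _ := by ring

/-! ### Characters -/

theorem chi_empty {n : ℕ} (x : Fin n → Bool) : chi ∅ x = 1 := by
  unfold chi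
  exact Finset.prod_empty

theorem sg_mul_self (b : Bool) : sg b * sg b = 1 := by
  cases b <;> norm_num [sg]

theorem sg_xor (a b : Bool) : sg (xor a b) = sg a * sg b := by
  cases a <;> cases b <;> norm_num [sg]

theorem chi_mix {n : ℕ} (S : Finset (Fin n)) (d t u : Fin n → Bool) :
    chi S (mix d t u) = chi S d * chi (S.filter fun i => t i = true) u := by
  unfold chi mix
  rw [Finset.prod_filter, ← Finset.prod_mul_distrib]
  refine Finset.prod_congr rfl fun i _ => ?_
  rw [sg_xor]
  cases t i <;> simp [sg]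

theorem chi_eq {n : ℕ} (S : Finset (Fin n)) (x : Fin n → Bool) :
    chi S x = ∏ i : Fin n, if i ∈ S then sg (x i) else 1 := by
  unfold chi
  rw [Finset.prod_ite_mem, Finset.univ_inter]

theorem chi_mul {n : ℕ} (S S' : Finset (Fin n)) (x : Fin n → Bool) :
    chi S x * chi S' x = chi (symmDiff S S') x := by
  rw [chi_eq, chi_eq, chi_eq, ← Finset.prod_mul_distrib]
  refine Finset.prod_congr rfl fun i _ => ?_
  have h := sg_mul_self (x i)
  by_cases h1 : i ∈ S <;> by_cases h2 : i ∈ S' <;> simp [h1, h2, h, Finset.mem_symmDiff]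

/-- the indicator of `t = 0` on `S` -/
def ind {n : ℕ} (S : Finset (Fin n)) (t : Fin n → Bool) : ℝ := ∏ i ∈ S, (1 + sg (t i)) / 2

theorem ind_sq {n : ℕ} (S : Finset (Fin n)) (t : Fin n → Bool) : ind S t * ind S t = ind S t := by
  unfold ind
  rw [← Finset.prod_mul_distrib]
  refine Finset.prod_congr rfl fun i _ => ?_
  cases t i <;> norm_num [sg]

theorem ind_eq {n : ℕ} (S : Finset (Fin n)) (t : Fin n → Bool) :
    ind S t = if (S.filter fun i => t i = true) = ∅ then 1 else 0 := by
  unfold ind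
  split_ifs with h
  · refine Finset.prod_eq_one fun i hi => ?_
    have h1 : t i = false := by
      by_contra h2
      have h3 : t i = true := by simpa using h2
      have h4 : i ∈ S.filter fun i => t i = true := Finset.mem_filter.mpr ⟨hi, h3⟩
      rw [h] at h4
      exact absurd h4 (Finset.notMem_empty i)
    rw [h1]
    norm_num [sg]
  · obtain ⟨i, hi⟩ := Finset.nonempty_iff_ne_empty.mpr h
    rw [Finset.mem_filter] at hi
    refine Finset.prod_eq_zero hi.1 ?_
    rw [hi.2]
    norm_num [sg]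

theorem ind_sum {n : ℕ} (S : Finset (Fin n)) (t : Fin n → Bool) :
    ind S t = (1 / 2 ^ S.card) * ∑ S' ∈ S.powerset, chi S' t := by
  unfold ind chi
  rw [← Finset.prod_one_add, Finset.prod_div_distrib, Finset.prod_const]
  ring

theorem avg_ind {n k : ℕ} {Ω : Type} [Fintype Ω] [Nonempty Ω] (T : Ω → Fin n → Bool)
    (hT : Indep k T) (S : Finset (Fin n)) (hS : S.card = k) :
    (avg fun ω => ind S (T ω)) = 1 / 2 ^ k := by
  have h1 : (avg fun ω => ind S (T ω)) =
      (1 / 2 ^ S.card) * ∑ S' ∈ S.powerset, avg fun ω => chi S' (T ω) := by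
    rw [← avg_sum, ← avg_mul_left]
    congr 1
    ext ω
    rw [ind_sum]
  rw [h1, Finset.sum_eq_single ∅]
  · simp only [chi_empty, avg_const, mul_one, hS]
  · intro S' hS' hne
    rw [Finset.mem_powerset] at hS'
    unfold avg
    rw [hT S' (Finset.nonempty_iff_ne_empty.mpr hne)
      (by rw [← hS]; exact Finset.card_le_card hS'), zero_div]
  · intro h
    exact absurd (Finset.empty_mem_powerset S) h

theorem avg_chi {n : ℕ} (hF : FOUR.Stm) (S : Finset (Fin n)) (hS : S ≠ ∅) : avg (chi S) = 0 := by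
  have h := (hF n fun _ => 1).2.2 ∅ (fun _ _ _ => rfl) S
    (fun h => hS (Finset.subset_empty.mp h))
  unfold hat at h
  simpa using h

theorem avg_mul {n : ℕ} (hP : PROD.Stm) {P Q : Finset (Fin n)} (h : Disjoint P Q)
    {f g : (Fin n → Bool) → ℝ} (hf : Dep P f) (hg : Dep Q g) :
    (avg fun x => f x * g x) = avg f * avg g := by
  have h1 := hP n P Q f g h hf hg ∅ ∅ (Finset.empty_subset _) (Finset.empty_subset _)
  rw [Finset.empty_union] at h1
  unfold hat at h1
  simpa only [chi_empty, mul_one] using h1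

theorem dep_chi {n : ℕ} {P S : Finset (Fin n)} (h : S ⊆ P) : Dep P (chi S) := by
  intro x y hxy
  unfold chi
  exact Finset.prod_congr rfl fun i hi => by rw [hxy i (h hi)]

theorem dep_mix {n : ℕ} {P : Finset (Fin n)} {f : (Fin n → Bool) → ℝ} (hf : Dep P f)
    (d t : Fin n → Bool) : Dep P fun u => f (mix d t u) := by
  intro x y hxy
  refine hf _ _ fun v hv => ?_
  unfold mix
  rw [hxy v hv]

/-- the sets of the definition of `top` -/
def FF {n : ℕ} (k : ℕ) (ρ : Fin n → ℕ) (v : Fin n) : Finset (Finset (Fin n)) :=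
  univ.filter fun S : Finset (Fin n) => S.card = k ∧ v ∈ S ∧ ∀ u ∈ S, ρ u ≤ ρ v

theorem dep_top {n : ℕ} (k : ℕ) (ρ : Fin n → ℕ) (v : Fin n) (A : (Fin n → Bool) → ℝ) :
    Dep (univ.filter fun u => ρ u ≤ ρ v) (top k ρ v A) := by
  intro x y hxy
  unfold top
  refine Finset.sum_congr rfl fun S hS => ?_
  rw [Finset.mem_filter] at hS
  have h : S ⊆ univ.filter fun u => ρ u ≤ ρ v := fun u hu =>
    Finset.mem_filter.mpr ⟨Finset.mem_univ _, hS.2.2.2 u hu⟩
  rw [dep_chi h x y hxy]

/-- the conditional average -/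
def hh {n : ℕ} (k : ℕ) (ρ : Fin n → ℕ) (v : Fin n) (A : (Fin n → Bool) → ℝ)
    (d t : Fin n → Bool) : ℝ := ∑ S ∈ FF k ρ v, hat A S * (chi S d * ind S t)

theorem avg_filter {n : ℕ} (hF : FOUR.Stm) (S : Finset (Fin n)) (t : Fin n → Bool) :
    (avg fun u => chi (S.filter fun i => t i = true) u) = ind S t := by
  rw [ind_eq]
  split_ifs with h
  · rw [h]
    simp only [chi_empty, avg_const]
  · exact avg_chi hF _ h

theorem avg_top_mix {n : ℕ} (hF : FOUR.Stm) (k : ℕ) (ρ : Fin n → ℕ) (v : Fin n)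
    (A : (Fin n → Bool) → ℝ) (d t : Fin n → Bool) :
    (avg fun u => top k ρ v A (mix d t u)) = hh k ρ v A d t := by
  unfold top hh FF
  rw [avg_sum]
  refine Finset.sum_congr rfl fun S _ => ?_
  simp only [chi_mix]
  rw [avg_mul_left, avg_mul_left, avg_filter hF]

theorem avg_hh_sq {n k : ℕ} (ρ : Fin n → ℕ) (v : Fin n) (A : (Fin n → Bool) → ℝ)
    {Ω : Type} [Fintype Ω] [Nonempty Ω] (D : Ω → Fin n → Bool) (hD : Indep (2 * k) D)
    (t : Fin n → Bool) :
    (avg fun ω => hh k ρ v A (D ω) t ^ 2) = ∑ S ∈ FF k ρ v, hat A S ^ 2 * ind S t := by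
  have h1 : ∀ ω, hh k ρ v A (D ω) t ^ 2 = ∑ S ∈ FF k ρ v, ∑ S' ∈ FF k ρ v,
      (hat A S * hat A S' * (ind S t * ind S' t)) * chi (symmDiff S S') (D ω) := by
    intro ω
    unfold hh
    rw [sq, Finset.sum_mul_sum]
    refine Finset.sum_congr rfl fun S _ => Finset.sum_congr rfl fun S' _ => ?_
    rw [← chi_mul]
    ring
  simp only [h1]
  rw [avg_sum]
  refine Finset.sum_congr rfl fun S hS => ?_
  rw [avg_sum, Finset.sum_eq_single S]
  · rw [avg_mul_left, symmDiff_self]
    have h2 : (avg fun ω => chi (⊥ : Finset (Fin n)) (D ω)) = 1 := by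
      have : (⊥ : Finset (Fin n)) = ∅ := rfl
      rw [this]
      simp only [chi_empty, avg_const]
    rw [h2, ind_sq]
    ring
  · intro S' hS' hne
    rw [avg_mul_left]
    unfold FF at hS hS'
    rw [Finset.mem_filter] at hS hS'
    have h3 : (symmDiff S S').card ≤ 2 * k := by
      have h4 : symmDiff S S' ⊆ S ∪ S' := by
        intro i hi
        rw [Finset.mem_symmDiff] at hi
        rw [Finset.mem_union]
        tauto
      have h5 := (Finset.card_le_card h4).trans (Finset.card_union_le S S')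
      rw [hS.2.1, hS'.2.1] at h5
      omega
    have h6 : (symmDiff S S').Nonempty := by
      rw [Finset.nonempty_iff_ne_empty]
      intro h7
      exact hne (symmDiff_eq_bot.mp h7).symm
    have h8 : (avg fun ω => chi (symmDiff S S') (D ω)) = 0 := by
      unfold avg
      rw [hD _ h6 h3, zero_div]
    rw [h8, mul_zero]
  · intro h
    exact absurd hS h

theorem main : TERM.Stm := by
  intro hF hP n k ρ v A B Ω₁ Ω₂ _ _ _ _ D T hk hA hB hdA hdB hD hT
  have hdisj : Disjoint (univ.filter fun u => ρ u ≤ ρ v) (univ.filter fun u => ρ v < ρ u) := by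
    rw [Finset.disjoint_left]
    intro u hu hu'
    rw [Finset.mem_filter] at hu hu'
    exact absurd hu'.2 (not_lt.mpr hu.2)
  constructor
  · -- the first part
    have h1 : ∀ (d t : Fin n → Bool), (avg fun u => top k ρ v A (mix d t u) * B (mix d t u)) =
        hh k ρ v A d t * avg fun u => B (mix d t u) := by
      intro d t
      rw [← avg_top_mix hF]
      exact avg_mul hP hdisj (dep_mix (dep_top k ρ v A) d t) (dep_mix hdB d t)
    have h2 : ∀ (d t : Fin n → Bool), |avg fun u => B (mix d t u)| ≤ 1 := by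
      intro d t
      refine (abs_avg_le _).trans ?_
      refine (avg_mono (g := fun _ => 1) fun u => hB _).trans ?_
      rw [avg_const]
    have h3 : avg (fun p : Ω₁ × Ω₂ × (Fin n → Bool) =>
        top k ρ v A (mix (D p.1) (T p.2.1) p.2.2) * B (mix (D p.1) (T p.2.1) p.2.2)) =
        avg fun ω₁ => avg fun ω₂ => hh k ρ v A (D ω₁) (T ω₂) *
          avg fun u => B (mix (D ω₁) (T ω₂) u) := by
      rw [avg_prod]
      refine congrArg avg (funext fun ω₁ => ?_)
      rw [avg_prod]
      refine congrArg avg (funext fun ω₂ => ?_)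
      exact h1 (D ω₁) (T ω₂)
    rw [h3]
    have h4 : |avg fun ω₁ => avg fun ω₂ => hh k ρ v A (D ω₁) (T ω₂) *
          avg fun u => B (mix (D ω₁) (T ω₂) u)| ≤
        avg fun ω₁ => avg fun ω₂ => |hh k ρ v A (D ω₁) (T ω₂)| := by
      refine (abs_avg_le _).trans (avg_mono fun ω₁ => ?_)
      refine (abs_avg_le _).trans (avg_mono fun ω₂ => ?_)
      rw [abs_mul]
      exact mul_le_of_le_one_right (abs_nonneg _) (h2 _ _)
    have h5 : (avg fun ω₁ => avg fun ω₂ => |hh k ρ v A (D ω₁) (T ω₂)|) ^ 2 ≤ 1 / 2 ^ k := by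
      calc (avg fun ω₁ => avg fun ω₂ => |hh k ρ v A (D ω₁) (T ω₂)|) ^ 2 ≤
            avg fun ω₁ => (avg fun ω₂ => |hh k ρ v A (D ω₁) (T ω₂)|) ^ 2 := sq_avg_le _
        _ ≤ avg fun ω₁ => avg fun ω₂ => hh k ρ v A (D ω₁) (T ω₂) ^ 2 := by
            refine avg_mono fun ω₁ => (sq_avg_le _).trans (le_of_eq ?_)
            simp only [sq_abs]
        _ = avg fun ω₂ => avg fun ω₁ => hh k ρ v A (D ω₁) (T ω₂) ^ 2 := avg_comm _
        _ = avg fun ω₂ => ∑ S ∈ FF k ρ v, hat A S ^ 2 * ind S (T ω₂) := by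
            refine congrArg avg (funext fun ω₂ => ?_)
            exact avg_hh_sq ρ v A D hD (T ω₂)
        _ = ∑ S ∈ FF k ρ v, hat A S ^ 2 * (1 / 2 ^ k) := by
            rw [avg_sum]
            refine Finset.sum_congr rfl fun S hS => ?_
            unfold FF at hS
            rw [Finset.mem_filter] at hS
            rw [avg_mul_left, avg_ind T hT S hS.2.1]
        _ = (∑ S ∈ FF k ρ v, hat A S ^ 2) * (1 / 2 ^ k) := by rw [Finset.sum_mul]
        _ ≤ 1 * (1 / 2 ^ k) := by
            apply mul_le_mul_of_nonneg_right _ (by positivity)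
            calc ∑ S ∈ FF k ρ v, hat A S ^ 2 ≤ ∑ S : Finset (Fin n), hat A S ^ 2 :=
                  Finset.sum_le_sum_of_subset_of_nonneg (Finset.subset_univ _)
                    fun _ _ _ => sq_nonneg _
              _ = avg fun x => A x ^ 2 := (hF n A).2.1
              _ ≤ avg fun _ : Fin n → Bool => (1 : ℝ) := by
                  refine avg_mono fun x => ?_
                  rw [← sq_abs]
                  exact pow_le_one₀ (abs_nonneg _) (hA x)
              _ = 1 := avg_const 1
        _ = 1 / 2 ^ k := one_mul _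
    have h6 : 0 ≤ avg fun ω₁ => avg fun ω₂ => |hh k ρ v A (D ω₁) (T ω₂)| :=
      avg_nonneg fun _ => avg_nonneg fun _ => abs_nonneg _
    refine h4.trans ?_
    rw [← Real.sqrt_sq h6]
    refine (Real.sqrt_le_sqrt h5).trans (le_of_eq ?_)
    rw [Real.sqrt_div zero_le_one, Real.sqrt_one]
  · -- the second part
    rw [avg_mul hP hdisj (dep_top k ρ v A) hdB]
    have h1 : avg (top k ρ v A) = 0 := by
      have h2 : avg (top k ρ v A) = avg fun x => ∑ S ∈ FF k ρ v, hat A S * chi S x := rfl
      rw [h2, avg_sum]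
      refine Finset.sum_eq_zero fun S hS => ?_
      unfold FF at hS
      rw [Finset.mem_filter] at hS
      rw [avg_mul_left]
      have h3 : S ≠ ∅ := by
        intro h4
        rw [h4, Finset.card_empty] at hS
        omega
      rw [avg_chi hF S h3, mul_zero]
    rw [h1, zero_mul]

end Pool.Agent.W45.Pw.TERM
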